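import Pool.Agent.Q155.NB.Alg

/-!
# Project NB, job NB-ABS: the abstract law of large numbers for an arbitrary law
-/

set_option autoImplicit false
set_option linter.unusedSectionVars false

namespace Q34.NB

open Finset Filter Topology
open Q155.KG (FI avg_nonneg avg_sq_le)
open Q155.NB (Nlg)
open Q155.NL (sh me part_le sh_mul_le sh_nonneg markov sum_two_pow)
open Pool.Agent.Q1.PT (avg avg_equiv avg_prod avg_mono avg_const avg_add avg_sub abs_avg avg_hom)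
open scoped Classical

theorem exists_Bg {ℓ : ℕ → ℝ} {μ : ℝ} (hs : HasSum (fun b : ℕ => 2 ^ b * ℓ b) μ) {δ : ℝ}
    (hδ : 0 < δ) : ∃ B : ℕ, (μ + 1) / 2 ^ B < δ ∧ μ - δ < ∑ b ∈ range B, (2 : ℝ) ^ b * ℓ b := by
  have h1 : Tendsto (fun B : ℕ => (μ + 1) / 2 ^ B) atTop (𝓝 0) := by
    have h2 : Tendsto (fun B : ℕ => (μ + 1) * (1 / 2) ^ B) atTop (𝓝 0) := by
      have := (tendsto_pow_atTop_nhds_zero_of_lt_one (by norm_num : (0 : ℝ) ≤ 1 / 2)
        (by norm_num : (1 / 2 : ℝ) < 1)).const_mul (μ + 1)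
      rwa [mul_zero] at this
    refine h2.congr fun B => ?_
    rw [one_div, inv_pow, div_eq_mul_inv]
  have h3 := hs.tendsto_sum_nat
  have h5 : ∀ᶠ B : ℕ in atTop, (μ + 1) / 2 ^ B < δ := h1.eventually (gt_mem_nhds hδ)
  have h6 : ∀ᶠ B : ℕ in atTop, μ - δ < ∑ b ∈ range B, (2 : ℝ) ^ b * ℓ b :=
    h3.eventually (lt_mem_nhds (by linarith))
  exact (h5.and h6).exists

/-- **JOB NB-ABS.** -/
theorem abs_gen : Q155.NB.S_ABS := by
  intro ℓ μ hℓ hsum ε ε' hε hε1 hε' hε'1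
  have hterm : ∀ b : ℕ, 0 ≤ (2 : ℝ) ^ b * ℓ b := fun b => mul_nonneg (by positivity) (hℓ b)
  have hμ0 : 0 ≤ μ := hsum.nonneg hterm
  have hle : ∀ B : ℕ, ∑ b ∈ range B, (2 : ℝ) ^ b * ℓ b ≤ μ := fun B =>
    sum_le_hasSum _ (fun b _ => hterm b) hsum
  have hone : ∀ b : ℕ, (2 : ℝ) ^ b * ℓ b ≤ μ := fun b =>
    le_hasSum hsum b (fun b' _ => hterm b')
  set δ₁ : ℝ := ε * ε' / 16 with hδ₁
  have hδ₁0 : 0 < δ₁ := by positivity
  have hδε : δ₁ ≤ ε / 16 := by
    rw [hδ₁]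
    have : ε * ε' ≤ ε * 1 := mul_le_mul_of_nonneg_left hε'1 hε.le
    linarith
  obtain ⟨B, hB1, hB2⟩ := exists_Bg hsum hδ₁0
  set δ : ℝ := δ₁ / 2 ^ B with hδ
  have hB0 : (0 : ℝ) < 2 ^ B := by positivity
  have hδ0 : 0 < δ := by positivity
  have h2B1 : (1 : ℝ) ≤ 2 ^ B := one_le_pow₀ (by norm_num)
  have hδB : 2 ^ B * δ = δ₁ := by
    rw [hδ]
    field_simp
  have hδle : δ ≤ δ₁ := by
    rw [hδ, div_le_iff₀ hB0]
    exact le_mul_of_one_le_right hδ₁0.le h2B1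
  set η : ℝ := min δ₁ (δ ^ 2 * ε' / (2 * (B + 1))) with hη
  have hη0 : 0 < η := by
    rw [hη]
    exact lt_min hδ₁0 (by positivity)
  refine ⟨η, hη0, ?_⟩
  intro Ω I _ _ _ _ K hK' hm'
  have hK : ∀ b, avg (fun ω => (sh K b ω - ℓ b) ^ 2) ≤ η := hK'
  have hm : avg (fun ω => me K ω) ≤ μ + η := hm'
  have hη1 : η ≤ δ₁ := min_le_left _ _
  have hη2 : η ≤ δ ^ 2 * ε' / (2 * (B + 1)) := min_le_right _ _
  have hη3 : η ≤ δ ^ 2 := by
    refine hη2.trans ?_
    rw [div_le_iff₀ (by positivity)]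
    have h1 : δ ^ 2 * ε' ≤ δ ^ 2 * 1 := mul_le_mul_of_nonneg_left hε'1 (by positivity)
    have h2 : δ ^ 2 * 1 ≤ δ ^ 2 * (2 * (B + 1)) := by
      refine mul_le_mul_of_nonneg_left ?_ (by positivity)
      have : (0 : ℝ) ≤ B := Nat.cast_nonneg _
      linarith
    linarith
  set R : Ω → ℝ := fun ω => me K ω - ∑ b ∈ range B, 2 ^ b * sh K b ω with hR
  have hR0 : ∀ ω, 0 ≤ R ω := fun ω => sub_nonneg.2 (part_le K B ω)
  -- the mean of the shares
  have hsh : ∀ b, ℓ b - 2 * δ ≤ avg (fun ω => sh K b ω) := by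
    intro b
    have h1 : ∀ ω, ℓ b - δ - (sh K b ω - ℓ b) ^ 2 * (1 / δ) ≤ sh K b ω := by
      intro ω
      have h2 : 0 ≤ (sh K b ω - ℓ b + δ / 2) ^ 2 := sq_nonneg _
      have h3 : -(sh K b ω - ℓ b) ≤ δ + (sh K b ω - ℓ b) ^ 2 * (1 / δ) := by
        rw [mul_one_div, ← sub_le_iff_le_add', le_div_iff₀ hδ0]
        nlinarith
      linarith
    have h4 := avg_mono h1
    rw [avg_sub, avg_const, Q155.NL.avg_mulc] at h4
    have h5 : avg (fun ω => (sh K b ω - ℓ b) ^ 2) * (1 / δ) ≤ δ := by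
      rw [mul_one_div, div_le_iff₀ hδ0]
      calc _ ≤ η := hK b
        _ ≤ δ ^ 2 := hη3
        _ = δ * δ := sq δ
    linarith
  have hRa : avg R ≤ ε * ε' / 4 := by
    have h1 : avg R = avg (fun ω => me K ω) - ∑ b ∈ range B, 2 ^ b * avg (fun ω => sh K b ω) := by
      rw [hR, avg_sub, Q155.NL.avg_sums]
      congr 1
      exact Finset.sum_congr rfl fun b _ => Q155.NL.avg_mulcl _ _
    have h2 : ∑ b ∈ range B, 2 ^ b * (ℓ b - 2 * δ) ≤
        ∑ b ∈ range B, 2 ^ b * avg (fun ω => sh K b ω) :=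
      Finset.sum_le_sum fun b _ => mul_le_mul_of_nonneg_left (hsh b) (by positivity)
    have h3 : ∑ b ∈ range B, 2 ^ b * (ℓ b - 2 * δ) =
        ∑ b ∈ range B, 2 ^ b * ℓ b - (∑ b ∈ range B, (2 : ℝ) ^ b) * (2 * δ) := by
      rw [Finset.sum_mul, ← Finset.sum_sub_distrib]
      exact Finset.sum_congr rfl fun b _ => by ring
    have h4 : (∑ b ∈ range B, (2 : ℝ) ^ b) * (2 * δ) ≤ 2 ^ B * (2 * δ) :=
      mul_le_mul_of_nonneg_right (sum_two_pow B) (by positivity)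
    have h5 : 2 ^ B * (2 * δ) = 2 * δ₁ := by rw [← hδB]; ring
    rw [h1]
    have h6 : 4 * δ₁ = ε * ε' / 4 := by rw [hδ₁]; ring
    linarith
  -- the exceptional set
  have hsub : (univ.filter fun ω => ¬ Nlg ℓ μ (K ω) ε) ⊆
      ((range B).biUnion fun b => univ.filter fun ω => δ ^ 2 ≤ (sh K b ω - ℓ b) ^ 2) ∪
        univ.filter fun ω => ε / 2 ≤ R ω := by
    intro ω hω
    have hω' := (Finset.mem_filter.1 hω).2
    by_contra hcon
    rw [Finset.mem_union, not_or] at hcon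
    obtain ⟨hc1, hc2⟩ := hcon
    have h1 : ∀ b ∈ range B, |sh K b ω - ℓ b| < δ := by
      intro b hb
      by_contra h'
      refine hc1 (Finset.mem_biUnion.2 ⟨b, hb, Finset.mem_filter.2 ⟨Finset.mem_univ _, ?_⟩⟩)
      rw [← sq_abs (sh K b ω - ℓ b)]
      exact pow_le_pow_left₀ hδ0.le (not_lt.1 h') 2
    have h2 : R ω < ε / 2 := by
      by_contra h'
      exact hc2 (Finset.mem_filter.2 ⟨Finset.mem_univ _, not_lt.1 h'⟩)
    have h3 : |∑ b ∈ range B, 2 ^ b * sh K b ω - ∑ b ∈ range B, 2 ^ b * ℓ b| ≤ δ₁ := by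
      rw [← Finset.sum_sub_distrib]
      refine (Finset.abs_sum_le_sum_abs _ _).trans ?_
      have h4 : ∀ b ∈ range B, |(2 : ℝ) ^ b * sh K b ω - 2 ^ b * ℓ b| ≤ 2 ^ b * δ := by
        intro b hb
        rw [← mul_sub, abs_mul, abs_of_nonneg (by positivity : (0 : ℝ) ≤ 2 ^ b)]
        exact mul_le_mul_of_nonneg_left (h1 b hb).le (by positivity)
      refine (Finset.sum_le_sum h4).trans ?_
      rw [← Finset.sum_mul, ← hδB]
      exact mul_le_mul_of_nonneg_right (sum_two_pow B) hδ0.le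
    obtain ⟨h4, h5⟩ := abs_le.1 h3
    have h6 := hle B
    have h7 : me K ω = R ω + ∑ b ∈ range B, 2 ^ b * sh K b ω := by
      rw [hR]
      ring
    have h8 : |me K ω - μ| < ε := by
      rw [abs_lt]
      have := hR0 ω
      constructor <;> linarith
    apply hω'
    refine ⟨fun b => ?_, h8⟩
    by_cases hb : b < B
    · have := h1 b (Finset.mem_range.2 hb)
      exact lt_of_lt_of_le this (hδle.trans (by linarith))
    · have k2 : (2 : ℝ) ^ B ≤ 2 ^ b := pow_le_pow_right₀ (by norm_num) (not_lt.1 hb)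
      have k3 := sh_mul_le K b ω
      have k4 := (abs_lt.1 h8).2
      have k5 : (0 : ℝ) < 2 ^ b := by positivity
      have k6 : sh K b ω ≤ (μ + 1) / 2 ^ b := by
        rw [le_div_iff₀ k5]
        linarith
      have k7 : (μ + 1) / (2 : ℝ) ^ b ≤ (μ + 1) / 2 ^ B :=
        div_le_div_of_nonneg_left (by linarith) (by positivity) k2
      have k8 : ℓ b ≤ μ / 2 ^ b := by
        rw [le_div_iff₀ k5, mul_comm]
        exact hone b
      have k9 : μ / (2 : ℝ) ^ b ≤ (μ + 1) / 2 ^ b :=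
        div_le_div_of_nonneg_right (by linarith) k5.le
      have k10 := hℓ b
      have k11 := sh_nonneg K b ω
      show |sh K b ω - ℓ b| < ε
      rw [abs_lt]
      constructor <;> linarith
  have hΩ : (0 : ℝ) < Fintype.card Ω := by exact_mod_cast Fintype.card_pos
  have hc1 : (((range B).biUnion fun b => univ.filter fun ω =>
      δ ^ 2 ≤ (sh K b ω - ℓ b) ^ 2).card : ℝ) ≤ ε' / 2 * Fintype.card Ω := by
    have h1 : (((range B).biUnion fun b => univ.filter fun ω =>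
        δ ^ 2 ≤ (sh K b ω - ℓ b) ^ 2).card : ℝ) ≤
        ∑ b ∈ range B, ((univ.filter fun ω => δ ^ 2 ≤ (sh K b ω - ℓ b) ^ 2).card : ℝ) := by
      exact_mod_cast Finset.card_biUnion_le
    refine h1.trans ?_
    have h2 : ∀ b ∈ range B, ((univ.filter fun ω => δ ^ 2 ≤ (sh K b ω - ℓ b) ^ 2).card : ℝ) ≤
        ε' / (2 * (B + 1)) * Fintype.card Ω := by
      intro b _
      refine (markov (fun ω => sq_nonneg _) (by positivity)).trans ?_
      refine mul_le_mul_of_nonneg_right ?_ hΩ.le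
      rw [div_le_iff₀ (by positivity)]
      refine (hK b).trans (hη2.trans (le_of_eq ?_))
      ring
    refine (Finset.sum_le_card_nsmul _ _ _ h2).trans ?_
    rw [nsmul_eq_mul, Finset.card_range, ← mul_assoc]
    refine mul_le_mul_of_nonneg_right ?_ hΩ.le
    rw [mul_div_assoc', div_le_div_iff₀ (by positivity) (by norm_num)]
    have : (0 : ℝ) ≤ B := Nat.cast_nonneg _
    nlinarith
  have hc2 : ((univ.filter fun ω => ε / 2 ≤ R ω).card : ℝ) ≤ ε' / 2 * Fintype.card Ω := by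
    refine (markov hR0 (by positivity)).trans ?_
    refine mul_le_mul_of_nonneg_right ?_ hΩ.le
    rw [div_le_iff₀ (by positivity)]
    refine hRa.trans (le_of_eq ?_)
    ring
  have hc3 : ((univ.filter fun ω => ¬ Nlg ℓ μ (K ω) ε).card : ℝ) ≤
      (((range B).biUnion fun b => univ.filter fun ω =>
        δ ^ 2 ≤ (sh K b ω - ℓ b) ^ 2).card : ℝ) +
        ((univ.filter fun ω => ε / 2 ≤ R ω).card : ℝ) := by
    exact_mod_cast (Finset.card_le_card hsub).trans (Finset.card_union_le _ _)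
  linarith

end Q34.NB
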