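import Pool.Agent.Q155.NB.Alg

/-!
# Project NB, job NB-BRD: one bordering by a vector whose second part is random
-/

set_option autoImplicit false
set_option linter.unusedSectionVars false

namespace Q34.NB

open Finset Matrix
open Q155.KT (sb z2_all z2_dbl avg_z2 sb_mulVec)
open Q155.NB (Sd Ad row Sol Lk ks BadS gT)
open Pool.Agent.Q1.PT (avg avg_equiv avg_prod avg_mono avg_const avg_add avg_sub abs_avg avg_hom)
open scoped Classical

/-- the character -/
noncomputable def ep (x : ZMod 2) : ℝ := if x = 0 then 1 else -1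

theorem ep_zero : ep 0 = 1 := if_pos rfl

theorem ep_one : ep 1 = -1 := if_neg one_ne_zero

theorem ep_add (x y : ZMod 2) : ep (x + y) = ep x * ep y := by
  rcases z2_all x with rfl | rfl <;> rcases z2_all y with rfl | rfl
  · rw [add_zero, ep_zero, mul_one]
  · rw [zero_add, ep_zero, one_mul]
  · rw [add_zero, ep_zero, mul_one]
  · rw [z2_dbl, ep_zero, ep_one]
    norm_num

section
variable {H : Type} [AddCommGroup H] [Fintype H]

theorem avg_ep (φ : H →+ ZMod 2) :
    avg (fun x => ep (φ x)) = if ∀ x, φ x = 0 then (1 : ℝ) else 0 := by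
  by_cases h : ∀ x, φ x = 0
  · rw [if_pos h]
    have : (fun x => ep (φ x)) = fun _ => (1 : ℝ) := by
      funext x
      rw [h x, ep_zero]
    rw [this, avg_const]
  · rw [if_neg h]
    push Not at h
    obtain ⟨x0, hx0⟩ := h
    have h1 : φ x0 = 1 := (z2_all _).resolve_left hx0
    have h2 : avg (fun x => ep (φ (x0 + x))) = avg (fun x => ep (φ x)) :=
      avg_equiv (Equiv.addLeft x0) (fun x => ep (φ x))
    have h3 : (fun x => ep (φ (x0 + x))) = fun x => ep (φ x) * (-1) := by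
      funext x
      rw [map_add, ep_add, h1, ep_one]
      ring
    rw [h3, Q155.NL.avg_mulc] at h2
    linarith

theorem avg_ind_zero : avg (fun x : H => if x = 0 then (1 : ℝ) else 0) = 1 / Fintype.card H := by
  unfold avg
  rw [Finset.sum_ite_eq' univ (0 : H) fun _ => (1 : ℝ), if_pos (Finset.mem_univ _)]

/-- the probability of a system of independent affine conditions -/
theorem avg_sys {υ : Type} [Fintype υ] (b : H →+ (υ → ZMod 2)) (hb : ∀ x, b x = 0 → x = 0)
    (l : H →+ ZMod 2) :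
    avg (fun q : υ → ZMod 2 => if ∀ x : H, q ⬝ᵥ b x + l x = 0 then (1 : ℝ) else 0) =
      1 / Fintype.card H := by
  have h1 : ∀ q : υ → ZMod 2, (if ∀ x : H, q ⬝ᵥ b x + l x = 0 then (1 : ℝ) else 0) =
      avg fun x : H => ep (q ⬝ᵥ b x + l x) := by
    intro q
    let φ : H →+ ZMod 2 :=
      { toFun := fun x => q ⬝ᵥ b x + l x
        map_zero' := by
          rw [map_zero, map_zero, dotProduct_zero, add_zero]
        map_add' := fun x y => by
          rw [map_add, map_add, dotProduct_add]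
          ring }
    exact (avg_ep φ).symm
  simp_rw [h1]
  rw [Q155.NL.avg_swap]
  have h2 : ∀ x : H, avg (fun q : υ → ZMod 2 => ep (q ⬝ᵥ b x + l x)) =
      if x = 0 then (1 : ℝ) else 0 := by
    intro x
    let ψ : (υ → ZMod 2) →+ ZMod 2 :=
      { toFun := fun q => q ⬝ᵥ b x
        map_zero' := zero_dotProduct _
        map_add' := fun p q => add_dotProduct _ _ _ }
    have h3 : (fun q : υ → ZMod 2 => ep (q ⬝ᵥ b x + l x)) = fun q => ep (ψ q) * ep (l x) := by
      funext q
      exact ep_add _ _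
    rw [h3, Q155.NL.avg_mulc, avg_ep]
    by_cases hx : x = 0
    · subst hx
      rw [if_pos rfl, if_pos, map_zero, ep_zero, one_mul]
      intro q
      show q ⬝ᵥ b 0 = 0
      rw [map_zero, dotProduct_zero]
    · rw [if_neg hx, if_neg, zero_mul]
      intro h4
      apply hx
      apply hb
      funext j
      have h5 : (Pi.single j 1 : υ → ZMod 2) ⬝ᵥ b x = 0 := h4 (Pi.single j 1)
      rw [single_dotProduct, one_mul] at h5
      exact h5
  simp_rw [h2]
  exact avg_ind_zero

theorem fib_zero {φ : H →+ ZMod 2} (h : ∀ x, φ x = 0) (e : ZMod 2) :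
    Nat.card {s : H // φ s = e} = if e = 0 then Nat.card H else 0 := by
  by_cases he : e = 0
  · rw [if_pos he, he]
    exact Nat.card_congr (Equiv.subtypeUnivEquiv fun x => h x)
  · rw [if_neg he]
    have : IsEmpty {s : H // φ s = e} := ⟨fun s => he (s.2.symm.trans (h s.1))⟩
    exact Nat.card_of_isEmpty

theorem fib_ne {φ : H →+ ZMod 2} (h : ¬ ∀ x, φ x = 0) (e : ZMod 2) :
    2 * Nat.card {s : H // φ s = e} = Nat.card H := by
  push Not at h
  obtain ⟨x0, hx0⟩ := h
  have h1 : φ x0 = 1 := (z2_all _).resolve_left hx0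
  have h2 : Nat.card {s : H // φ s = e} = Nat.card {s : H // ¬ φ s = e} := by
    refine Nat.card_congr (Equiv.subtypeEquiv (Equiv.addLeft x0) fun s => ?_)
    rw [Equiv.coe_addLeft, map_add, h1]
    rcases z2_all (φ s) with h | h <;> rcases z2_all e with h' | h' <;> rw [h, h'] <;> decide
  have h3 := Nat.card_congr (Equiv.sumCompl fun s : H => φ s = e)
  rw [Nat.card_sum, ← h2] at h3
  omega

end

section
variable {n : Type} [Fintype n]

/-- the orthogonal space -/
def orth (R : Submodule (ZMod 2) (n → ZMod 2)) : Submodule (ZMod 2) (n → ZMod 2) where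
  carrier := {κ | ∀ r ∈ R, κ ⬝ᵥ r = 0}
  add_mem' := fun {a b} ha hb r hr => by
    rw [add_dotProduct, ha r hr, hb r hr, add_zero]
  zero_mem' := fun r _ => zero_dotProduct r
  smul_mem' := fun c a ha r hr => by
    rw [smul_dotProduct, ha r hr, smul_zero]

theorem card_orth (R : Submodule (ZMod 2) (n → ZMod 2)) :
    Nat.card (orth R) * Nat.card R = 2 ^ Fintype.card n := by
  have h1 := avg_sys (H := R) R.subtype.toAddMonoidHom (fun x hx => Subtype.ext hx) 0
  have h2 : avg (fun q : n → ZMod 2 => if ∀ x : R, q ⬝ᵥ R.subtype.toAddMonoidHom x +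
      (0 : R →+ ZMod 2) x = 0 then (1 : ℝ) else 0) = (Nat.card (orth R) : ℝ) / 2 ^ Fintype.card n := by
    unfold avg
    rw [Finset.sum_boole, Fintype.card_fun, ZMod.card]
    push_cast
    congr 2
    rw [← Fintype.card_subtype, ← Nat.card_eq_fintype_card]
    refine Nat.card_congr (Equiv.subtypeEquivRight fun q => ?_)
    constructor
    · intro h r hr
      have := h ⟨r, hr⟩
      rw [AddMonoidHom.zero_apply, add_zero] at this
      exact this
    · intro h x
      rw [AddMonoidHom.zero_apply, add_zero]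
      exact h x.1 x.2
  rw [h2, show Fintype.card R = Nat.card R from Nat.card_eq_fintype_card.symm] at h1
  have h3 : (0 : ℝ) < Nat.card R := by exact_mod_cast Nat.card_pos
  rw [div_eq_div_iff (by positivity) h3.ne', one_mul] at h1
  exact_mod_cast h1

theorem orth_orth (R : Submodule (ZMod 2) (n → ZMod 2)) : orth (orth R) = R := by
  have h1 : R ≤ orth (orth R) := fun r hr κ hκ => by
    rw [dotProduct_comm]
    exact hκ r hr
  have h2 := card_orth R
  have h3 := card_orth (orth R)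
  have h4 : Nat.card (orth (orth R)) = Nat.card R := by
    have h5 : 0 < Nat.card (orth R) := Nat.card_pos
    rw [← h2, mul_comm] at h3
    exact Nat.eq_of_mul_eq_mul_left h5 h3
  apply SetLike.coe_injective
  symm
  refine Set.eq_of_subset_of_ncard_le h1 ?_ (Set.toFinite _)
  rw [← Nat.card_coe_set_eq, ← Nat.card_coe_set_eq]
  exact h4.le

end

section
variable {G F : Type} [AddCommGroup G] [Module (ZMod 2) G] [AddCommGroup F] [Module (ZMod 2) F]
  [Finite G] (D : Sd G F) {n : Type} [Fintype n] (h : n → F) (M : Matrix n n (ZMod 2))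

/-- the admissible vectors -/
def AS : Submodule (ZMod 2) ((n → ZMod 2) × G) where
  carrier := {x | Ad D h x}
  add_mem' := fun {x y} hx hy => by
    show (x.2 + y.2, ∑ i, (x.1 i + y.1 i) • h i) ∈ D.𝓛
    have := D.𝓛.add_mem hx hy
    have e : (x.2, ∑ i, x.1 i • h i) + (y.2, ∑ i, y.1 i • h i) =
        (x.2 + y.2, ∑ i, (x.1 i + y.1 i) • h i) := by
      refine Prod.ext rfl ?_
      show ∑ i, x.1 i • h i + ∑ i, y.1 i • h i = ∑ i, (x.1 i + y.1 i) • h i
      rw [← Finset.sum_add_distrib]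
      exact Finset.sum_congr rfl fun i _ => (add_smul _ _ _).symm
    rwa [e] at this
  zero_mem' := by
    show ((0 : G), ∑ i, (0 : ZMod 2) • h i) ∈ D.𝓛
    have e : ((0 : G), ∑ i, (0 : ZMod 2) • h i) = 0 := by
      refine Prod.ext rfl ?_
      show ∑ i, (0 : ZMod 2) • h i = 0
      exact Finset.sum_eq_zero fun i _ => zero_smul _ _
    rw [e]
    exact D.𝓛.zero_mem
  smul_mem' := fun c x hx => by
    show (c • x.2, ∑ i, (c • x.1 i) • h i) ∈ D.𝓛
    have := D.𝓛.smul_mem c hx
    have e : c • (x.2, ∑ i, x.1 i • h i) = (c • x.2, ∑ i, (c • x.1 i) • h i) := by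
      refine Prod.ext rfl ?_
      show c • ∑ i, x.1 i • h i = ∑ i, (c • x.1 i) • h i
      rw [Finset.smul_sum]
      exact Finset.sum_congr rfl fun i _ => (smul_assoc _ _ _).symm
    rwa [e] at this

/-- the rows -/
def rl : AS D h →ₗ[ZMod 2] (n → ZMod 2) where
  toFun x := fun i => row D h M x.1 i
  map_add' x y := by
    funext i
    show (M *ᵥ (x.1.1 + y.1.1)) i + D.χ (x.1.2 + y.1.2) (h i) =
      ((M *ᵥ x.1.1) i + D.χ x.1.2 (h i)) + ((M *ᵥ y.1.1) i + D.χ y.1.2 (h i))
    rw [Matrix.mulVec_add, Pi.add_apply, map_add, LinearMap.add_apply]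
    ring
  map_smul' a x := by
    funext i
    show (M *ᵥ (a • x.1.1)) i + D.χ (a • x.1.2) (h i) = a • ((M *ᵥ x.1.1) i + D.χ x.1.2 (h i))
    rw [Matrix.mulVec_smul, Pi.smul_apply, map_smul, LinearMap.smul_apply, smul_add]

noncomputable instance fkr : Fintype (LinearMap.ker (rl D h M)) := Fintype.ofFinite _

/-- the solutions are the kernel -/
noncomputable def solEquiv : Sol D h M ≃ LinearMap.ker (rl D h M) where
  toFun x := ⟨⟨x.1, x.2.1⟩, LinearMap.mem_ker.2 (funext fun i => x.2.2 i)⟩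
  invFun y := ⟨y.1.1, y.1.2, fun i => congrFun (LinearMap.mem_ker.1 y.2) i⟩
  left_inv _ := rfl
  right_inv _ := rfl

theorem ks_eq : ks D h M = Nat.card (LinearMap.ker (rl D h M)) := Nat.card_congr (solEquiv D h M)

theorem card_ker_range : ks D h M * Nat.card (LinearMap.range (rl D h M)) =
    Nat.card {x : (n → ZMod 2) × G // Ad D h x} := by
  have h1 := AddSubgroup.card_mul_index ((rl D h M).toAddMonoidHom.ker)
  rw [AddSubgroup.index_ker] at h1
  have e1 : Nat.card (rl D h M).toAddMonoidHom.ker = ks D h M := by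
    rw [ks_eq]
    exact Nat.card_congr (Equiv.refl _)
  have e2 : Nat.card (rl D h M).toAddMonoidHom.range = Nat.card (LinearMap.range (rl D h M)) :=
    Nat.card_congr (Equiv.refl _)
  rw [e1, e2] at h1
  exact h1

theorem Lk_eq : Lk D h M = (orth (LinearMap.range (rl D h M)) : Set (n → ZMod 2)) := by
  ext κ
  constructor
  · intro hκ r hr
    obtain ⟨x, rfl⟩ := LinearMap.mem_range.1 hr
    exact hκ x.1 x.2
  · intro hκ x hx
    exact hκ (rl D h M ⟨x, hx⟩) (LinearMap.mem_range.2 ⟨⟨x, hx⟩, rfl⟩)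

theorem ks_Lk {t : ℝ} (ht : (Nat.card {x : (n → ZMod 2) × G // Ad D h x} : ℝ) =
    t * 2 ^ Fintype.card n) :
    (ks D h M : ℝ) = t * Nat.card (orth (LinearMap.range (rl D h M))) := by
  have h1 := card_ker_range D h M
  have h2 := card_orth (LinearMap.range (rl D h M))
  have h3 : (0 : ℝ) < Nat.card (LinearMap.range (rl D h M)) := by exact_mod_cast Nat.card_pos
  have h4 : (ks D h M : ℝ) * Nat.card (LinearMap.range (rl D h M)) = t * 2 ^ Fintype.card n := by
    rw [← ht, ← h1]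
    push_cast
    ring
  have h5 : (2 : ℝ) ^ Fintype.card n = Nat.card (orth (LinearMap.range (rl D h M))) *
      Nat.card (LinearMap.range (rl D h M)) := by exact_mod_cast h2.symm
  rw [h5, ← mul_assoc] at h4
  exact mul_right_cancel₀ h3.ne' h4

theorem ks_pow : ∃ s : ℕ, ks D h M = 2 ^ s := by
  refine ⟨Module.finrank (ZMod 2) (LinearMap.ker (rl D h M)), ?_⟩
  rw [ks_eq, Module.natCard_eq_pow_finrank (K := ZMod 2), Nat.card_zmod]

/-- the functional on the solutions -/
def fn (w : n → ZMod 2) : LinearMap.ker (rl D h M) →+ ZMod 2 where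
  toFun s := w ⬝ᵥ s.1.1.1
  map_zero' := dotProduct_zero _
  map_add' _ _ := dotProduct_add _ _ _

/-- a sum over a product with `ZMod 2` -/
theorem card_split {α : Type} [Finite α] (P : α → ZMod 2 → Prop) :
    Nat.card {p : α × ZMod 2 // P p.1 p.2} = Nat.card {a // P a 0} + Nat.card {a // P a 1} := by
  rw [← Nat.card_sum]
  refine Nat.card_congr ⟨fun p => if hp : p.1.2 = 0 then Sum.inl ⟨p.1.1, hp ▸ p.2⟩ else
    Sum.inr ⟨p.1.1, (z2_all p.1.2).resolve_left hp ▸ p.2⟩,
    Sum.elim (fun a => ⟨(a.1, 0), a.2⟩) fun a => ⟨(a.1, 1), a.2⟩, fun p => ?_, fun a => ?_⟩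
  · obtain ⟨⟨a, y⟩, hp⟩ := p
    rcases z2_all y with rfl | rfl
    · simp
    · simp
  · rcases a with a | a
    · exact dif_pos rfl
    · exact dif_neg one_ne_zero

theorem row_inl (w : n → ZMod 2) (d : ZMod 2) (X : n ⊕ Unit → ZMod 2) (g : G) (i : n) :
    row D (Sum.elim h fun _ : Unit => 0) (sb M w d) (X, g) (Sum.inl i) =
      row D h M (X ∘ Sum.inl, g) i + X (Sum.inr ()) * w i := by
  have hX : X = Sum.elim (X ∘ Sum.inl) fun _ => X (Sum.inr ()) := by
    funext v
    rcases v with v | v <;> rfl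
  show (sb M w d *ᵥ X) (Sum.inl i) + D.χ g (h i) =
    (M *ᵥ (X ∘ Sum.inl)) i + D.χ g (h i) + X (Sum.inr ()) * w i
  conv_lhs => rw [hX]
  rw [sb_mulVec, Sum.elim_inl, Pi.add_apply, Pi.smul_apply, smul_eq_mul]
  ring

theorem row_inr (w : n → ZMod 2) (d : ZMod 2) (X : n ⊕ Unit → ZMod 2) (g : G) :
    row D (Sum.elim h fun _ : Unit => 0) (sb M w d) (X, g) (Sum.inr ()) =
      w ⬝ᵥ (X ∘ Sum.inl) + d * X (Sum.inr ()) := by
  have hX : X = Sum.elim (X ∘ Sum.inl) fun _ => X (Sum.inr ()) := by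
    funext v
    rcases v with v | v <;> rfl
  show (sb M w d *ᵥ X) (Sum.inr ()) + D.χ g 0 = _
  conv_lhs => rw [hX]
  rw [sb_mulVec, Sum.elim_inr, map_zero, add_zero]

theorem ad_elim (X : n ⊕ Unit → ZMod 2) (g : G) :
    Ad D (Sum.elim h fun _ : Unit => 0) (X, g) ↔ Ad D h (X ∘ Sum.inl, g) := by
  unfold Ad
  have e : ∑ i : n ⊕ Unit, X i • (Sum.elim h fun _ : Unit => (0 : F)) i =
      ∑ i, (X ∘ Sum.inl) i • h i := by
    rw [Fintype.sum_sum_type]
    simp
  show (g, ∑ i : n ⊕ Unit, X i • (Sum.elim h fun _ : Unit => (0 : F)) i) ∈ D.𝓛 ↔ _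
  rw [e]

theorem ks_sb (w : n → ZMod 2) (d : ZMod 2) :
    ks D (Sum.elim h fun _ : Unit => 0) (sb M w d) =
      Nat.card {a : AS D h // rl D h M a = 0 ∧ w ⬝ᵥ a.1.1 = 0} +
      Nat.card {a : AS D h // rl D h M a = w ∧ w ⬝ᵥ a.1.1 = d} := by
  have h1 : ks D (Sum.elim h fun _ : Unit => 0) (sb M w d) =
      Nat.card {p : AS D h × ZMod 2 // rl D h M p.1 + p.2 • w = 0 ∧
        w ⬝ᵥ p.1.1.1 + d * p.2 = 0} := by
    refine Nat.card_congr ⟨fun x => ⟨(⟨(x.1.1 ∘ Sum.inl, x.1.2), (ad_elim D h _ _).1 x.2.1⟩,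
      x.1.1 (Sum.inr ())), ?_, ?_⟩, fun p => ⟨(Sum.elim p.1.1.1.1 fun _ => p.1.2, p.1.1.1.2),
      (ad_elim D h _ _).2 p.1.1.2, ?_⟩, fun x => ?_, fun p => ?_⟩
    · funext i
      have := x.2.2 (Sum.inl i)
      rw [row_inl D h M w d x.1.1 x.1.2 i] at this
      exact this
    · have := x.2.2 (Sum.inr ())
      rw [row_inr D h M w d x.1.1 x.1.2] at this
      exact this
    · rintro (i | i)
      · rw [row_inl]
        exact congrFun p.2.1 i
      · rw [row_inr]
        exact p.2.2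
    · refine Subtype.ext (Prod.ext ?_ rfl)
      funext v
      rcases v with v | v <;> rfl
    · rfl
  rw [h1, card_split fun a y => rl D h M a + y • w = 0 ∧ w ⬝ᵥ a.1.1 + d * y = 0]
  congr 1
  · refine Nat.card_congr (Equiv.subtypeEquivRight fun a => ?_)
    rw [zero_smul, add_zero, mul_zero, add_zero]
  · refine Nat.card_congr (Equiv.subtypeEquivRight fun a => ?_)
    have h2 : ∀ x y : ZMod 2, x + y = 0 ↔ x = y := by decide
    rw [one_smul, mul_one, h2]
    refine and_congr ?_ Iff.rfl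
    constructor
    · intro h3
      funext i
      exact (h2 _ _).1 (congrFun h3 i)
    · intro h3
      funext i
      exact (h2 _ _).2 (congrFun h3 i)

theorem part_one (w : n → ZMod 2) :
    Nat.card {a : AS D h // rl D h M a = 0 ∧ w ⬝ᵥ a.1.1 = 0} =
      Nat.card {s : LinearMap.ker (rl D h M) // fn D h M w s = 0} :=
  Nat.card_congr ⟨fun a => ⟨⟨a.1, LinearMap.mem_ker.2 a.2.1⟩, a.2.2⟩,
    fun s => ⟨s.1.1, LinearMap.mem_ker.1 s.1.2, s.2⟩, fun _ => rfl, fun _ => rfl⟩

theorem part_two {w : n → ZMod 2} (a₀ : AS D h) (ha : rl D h M a₀ = w) (d : ZMod 2) :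
    Nat.card {a : AS D h // rl D h M a = w ∧ w ⬝ᵥ a.1.1 = d} =
      Nat.card {s : LinearMap.ker (rl D h M) // fn D h M w s = d + w ⬝ᵥ a₀.1.1} := by
  have h0 : ∀ a : AS D h, a + a₀ + a₀ = a := by
    intro a
    have h1 : a₀ + a₀ = (0 : AS D h) := by
      rw [← two_smul (ZMod 2) a₀]
      have : (2 : ZMod 2) = 0 := by decide
      rw [this, zero_smul]
    rw [add_assoc, h1, add_zero]
  refine Nat.card_congr ⟨fun a => ⟨⟨a.1 + a₀, ?_⟩, ?_⟩, fun s => ⟨s.1.1 + a₀, ?_, ?_⟩,
    fun a => Subtype.ext (h0 _), fun s => Subtype.ext (Subtype.ext (h0 _))⟩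
  · rw [LinearMap.mem_ker, map_add, a.2.1, ha]
    funext i
    exact z2_dbl _
  · show w ⬝ᵥ (a.1.1.1 + a₀.1.1) = d + w ⬝ᵥ a₀.1.1
    rw [dotProduct_add, a.2.2]
  · rw [map_add, LinearMap.mem_ker.1 s.1.2, zero_add, ha]
  · show w ⬝ᵥ (s.1.1.1.1 + a₀.1.1) = d
    have h1 : w ⬝ᵥ s.1.1.1.1 = d + w ⬝ᵥ a₀.1.1 := s.2
    rw [dotProduct_add, h1, add_assoc, z2_dbl, add_zero]

/-- the mean over the corner -/
theorem avg_corner (w : n → ZMod 2) (f : ℕ → ℝ) :
    avg (fun d : ZMod 2 => f (ks D (Sum.elim h fun _ : Unit => 0) (sb M w d))) =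
      if w ∈ LinearMap.range (rl D h M) then
        (if ∀ s, fn D h M w s = 0 then (f (ks D h M) + f (2 * ks D h M)) / 2 else f (ks D h M))
      else (if ∀ s, fn D h M w s = 0 then f (ks D h M) else f (ks D h M / 2)) := by
  rw [avg_z2, ks_sb, ks_sb, part_one, ks_eq]
  by_cases hw : w ∈ LinearMap.range (rl D h M)
  · rw [if_pos hw]
    obtain ⟨a₀, ha⟩ := LinearMap.mem_range.1 hw
    rw [part_two D h M a₀ ha, part_two D h M a₀ ha]
    by_cases hs : ∀ s, fn D h M w s = 0
    · rw [if_pos hs, fib_zero hs, fib_zero hs, fib_zero hs, if_pos rfl, zero_add]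
      rcases z2_all (w ⬝ᵥ a₀.1.1) with h1 | h1
      · rw [h1, if_pos rfl, add_zero, if_neg one_ne_zero, add_zero]
        rw [two_mul]
        ring
      · rw [h1, if_neg one_ne_zero, add_zero, z2_dbl, if_pos rfl, two_mul]
    · rw [if_neg hs]
      have h1 := fun e => fib_ne (φ := fn D h M w) hs e
      have h2 := h1 0
      have h3 := h1 (0 + w ⬝ᵥ a₀.1.1)
      have h4 := h1 (1 + w ⬝ᵥ a₀.1.1)
      have h5 : Nat.card {s : LinearMap.ker (rl D h M) // fn D h M w s = 0} +
          Nat.card {s : LinearMap.ker (rl D h M) // fn D h M w s = 0 + w ⬝ᵥ a₀.1.1} =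
          Nat.card (LinearMap.ker (rl D h M)) := by omega
      have h6 : Nat.card {s : LinearMap.ker (rl D h M) // fn D h M w s = 0} +
          Nat.card {s : LinearMap.ker (rl D h M) // fn D h M w s = 1 + w ⬝ᵥ a₀.1.1} =
          Nat.card (LinearMap.ker (rl D h M)) := by omega
      rw [h5, h6]
      ring
  · rw [if_neg hw]
    have h1 : ∀ d : ZMod 2, Nat.card {a : AS D h // rl D h M a = w ∧ w ⬝ᵥ a.1.1 = d} = 0 := by
      intro d
      have : IsEmpty {a : AS D h // rl D h M a = w ∧ w ⬝ᵥ a.1.1 = d} :=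
        ⟨fun a => hw (LinearMap.mem_range.2 ⟨a.1, a.2.1⟩)⟩
      exact Nat.card_of_isEmpty
    rw [h1, h1, add_zero]
    by_cases hs : ∀ s, fn D h M w s = 0
    · rw [if_pos hs, fib_zero hs, if_pos rfl]
      ring
    · rw [if_neg hs]
      have h2 := fib_ne (φ := fn D h M w) hs 0
      have h3 : Nat.card {s : LinearMap.ker (rl D h M) // fn D h M w s = 0} =
          Nat.card (LinearMap.ker (rl D h M)) / 2 := by omega
      rw [h3]
      ring

end

section
variable {G F : Type} [AddCommGroup G] [Module (ZMod 2) G] [AddCommGroup F] [Module (ZMod 2) F]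
  [Finite G] (D : Sd G F) {τ υ : Type} [Fintype τ] [Fintype υ] (h : τ ⊕ υ → F)
  (M : Matrix (τ ⊕ υ) (τ ⊕ υ) (ZMod 2)) (c : τ → ZMod 2)

theorem dot_elim (q : υ → ZMod 2) (x : τ ⊕ υ → ZMod 2) :
    Sum.elim c q ⬝ᵥ x = q ⬝ᵥ (x ∘ Sum.inr) + c ⬝ᵥ (x ∘ Sum.inl) := by
  unfold dotProduct
  rw [Fintype.sum_sum_type, add_comm]
  rfl

/-- the restriction to the second part -/
def r2 : (τ ⊕ υ → ZMod 2) →+ (υ → ZMod 2) where
  toFun x := x ∘ Sum.inr
  map_zero' := rfl
  map_add' _ _ := rfl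

/-- the functional of the first part -/
def r1 : (τ ⊕ υ → ZMod 2) →+ ZMod 2 where
  toFun x := c ⬝ᵥ (x ∘ Sum.inl)
  map_zero' := dotProduct_zero _
  map_add' _ _ := dotProduct_add _ _ _

/-- the first components of the solutions -/
def s1 : LinearMap.ker (rl D h M) →+ (τ ⊕ υ → ZMod 2) where
  toFun s := s.1.1.1
  map_zero' := rfl
  map_add' _ _ := rfl

/-- the relations -/
def k1 : orth (LinearMap.range (rl D h M)) →+ (τ ⊕ υ → ZMod 2) where
  toFun s := s.1
  map_zero' := rfl
  map_add' _ _ := rfl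

theorem in_iff (w : τ ⊕ υ → ZMod 2) : w ∈ LinearMap.range (rl D h M) ↔
    ∀ κ : orth (LinearMap.range (rl D h M)), w ⬝ᵥ κ.1 = 0 := by
  conv_lhs => rw [← orth_orth (LinearMap.range (rl D h M))]
  constructor
  · intro hw κ
    exact hw κ.1 κ.2
  · intro hw κ hκ
    exact hw ⟨κ, hκ⟩

variable {D h M}

theorem not_bad (hb : ¬ BadS D h M) (κ : orth (LinearMap.range (rl D h M)))
    (s : LinearMap.ker (rl D h M)) (hks : r2 (k1 D h M κ) + r2 (s1 D h M s) = 0) :
    κ = 0 ∧ s = 0 := by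
  by_contra hcon
  apply hb
  refine ⟨κ.1, ?_, s.1.1, ⟨s.1.2, fun i => congrFun (LinearMap.mem_ker.1 s.2) i⟩,
    fun j => congrFun hks j, ?_⟩
  · rw [Lk_eq]
    exact κ.2
  · rintro ⟨h1, h2⟩
    exact hcon ⟨Subtype.ext h1, Subtype.ext (Subtype.ext h2)⟩

theorem prob_one (hb : ¬ BadS D h M) :
    avg (fun q : υ → ZMod 2 => if Sum.elim c q ∈ LinearMap.range (rl D h M) then (1 : ℝ) else 0) =
      1 / Nat.card (orth (LinearMap.range (rl D h M))) := by
  have h1 := avg_sys (H := orth (LinearMap.range (rl D h M))) (r2.comp (k1 D h M))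
    (fun κ hκ => (not_bad hb κ 0 (by
      rw [map_zero, map_zero, add_zero]
      exact hκ)).1) ((r1 c).comp (k1 D h M))
  rw [Nat.card_eq_fintype_card, ← h1]
  congr 1
  funext q
  refine if_congr ?_ rfl rfl
  rw [in_iff]
  refine forall_congr' fun κ => ?_
  rw [dot_elim]
  rfl

theorem prob_two (hb : ¬ BadS D h M) :
    avg (fun q : υ → ZMod 2 => if ∀ s, fn D h M (Sum.elim c q) s = 0 then (1 : ℝ) else 0) =
      1 / ks D h M := by
  have h1 := avg_sys (H := LinearMap.ker (rl D h M)) (r2.comp (s1 D h M))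
    (fun s hs => (not_bad hb 0 s (by
      rw [map_zero, map_zero, zero_add]
      exact hs)).2) ((r1 c).comp (s1 D h M))
  rw [ks_eq, Nat.card_eq_fintype_card, ← h1]
  congr 1
  funext q
  refine if_congr ?_ rfl rfl
  refine forall_congr' fun s => ?_
  show Sum.elim c q ⬝ᵥ s.1.1.1 = 0 ↔ _
  rw [dot_elim]
  rfl

theorem prob_both (hb : ¬ BadS D h M) :
    avg (fun q : υ → ZMod 2 => if Sum.elim c q ∈ LinearMap.range (rl D h M) ∧
      (∀ s, fn D h M (Sum.elim c q) s = 0) then (1 : ℝ) else 0) =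
      1 / (Nat.card (orth (LinearMap.range (rl D h M))) * ks D h M) := by
  have h1 := avg_sys (H := orth (LinearMap.range (rl D h M)) × LinearMap.ker (rl D h M))
    ((r2.comp (k1 D h M)).coprod (r2.comp (s1 D h M)))
    (fun p hp => Prod.ext (not_bad hb p.1 p.2 hp).1 (not_bad hb p.1 p.2 hp).2)
    (((r1 c).comp (k1 D h M)).coprod ((r1 c).comp (s1 D h M)))
  rw [Fintype.card_prod, ← Nat.card_eq_fintype_card, ← Nat.card_eq_fintype_card, ← ks_eq] at h1
  push_cast at h1
  rw [← h1]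
  congr 1
  funext q
  refine if_congr ?_ rfl rfl
  rw [in_iff]
  have e1 : ∀ κ : orth (LinearMap.range (rl D h M)), Sum.elim c q ⬝ᵥ κ.1 =
      q ⬝ᵥ r2 (k1 D h M κ) + r1 c (k1 D h M κ) := fun κ => dot_elim c q κ.1
  have e2 : ∀ s : LinearMap.ker (rl D h M), fn D h M (Sum.elim c q) s =
      q ⬝ᵥ r2 (s1 D h M s) + r1 c (s1 D h M s) := fun s => dot_elim c q s.1.1.1
  have e3 : ∀ p : orth (LinearMap.range (rl D h M)) × LinearMap.ker (rl D h M),
      q ⬝ᵥ ((r2.comp (k1 D h M)).coprod (r2.comp (s1 D h M))) p +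
        (((r1 c).comp (k1 D h M)).coprod ((r1 c).comp (s1 D h M))) p =
      (q ⬝ᵥ r2 (k1 D h M p.1) + r1 c (k1 D h M p.1)) +
        (q ⬝ᵥ r2 (s1 D h M p.2) + r1 c (s1 D h M p.2)) := by
    intro p
    show q ⬝ᵥ (r2 (k1 D h M p.1) + r2 (s1 D h M p.2)) +
      (r1 c (k1 D h M p.1) + r1 c (s1 D h M p.2)) = _
    rw [dotProduct_add]
    ring
  constructor
  · rintro ⟨h2, h3⟩ p
    rw [e3, ← e1, ← e2, h2, h3, add_zero]
  · intro h2
    refine ⟨fun κ => ?_, fun s => ?_⟩
    · have := h2 (κ, 0)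
      rw [e3] at this
      simp only [map_zero, dotProduct_zero, add_zero] at this
      rw [e1]
      exact this
    · have := h2 (0, s)
      rw [e3] at this
      simp only [map_zero, dotProduct_zero, add_zero, zero_add] at this
      rw [e2]
      exact this

end

/-- **JOB NB-BRD.** -/
theorem brd : Q155.NB.S_BRD := by
  intro G F _ _ _ _ _ D τ υ _ _ h M t ht
  have ht' : (Nat.card {x : (τ ⊕ υ → ZMod 2) × G // Ad D h x} : ℝ) =
      t * 2 ^ Fintype.card (τ ⊕ υ) := by
    rw [ht, Fintype.card_sum]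
  have hks := ks_Lk D h M ht'
  have hA : (0 : ℝ) < Nat.card {x : (τ ⊕ υ → ZMod 2) × G // Ad D h x} := by
    have : Nonempty {x : (τ ⊕ υ → ZMod 2) × G // Ad D h x} := ⟨⟨0, (AS D h).zero_mem⟩⟩
    exact_mod_cast Nat.card_pos
  have ht0 : 0 < t := by
    rw [ht'] at hA
    by_contra hneg
    have h1 : (0 : ℝ) < 2 ^ Fintype.card (τ ⊕ υ) := by positivity
    have h2 := mul_nonpos_of_nonpos_of_nonneg (not_lt.1 hneg) h1.le
    linarith
  have hL : (1 : ℝ) ≤ Nat.card (orth (LinearMap.range (rl D h M))) := by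
    exact_mod_cast Nat.card_pos
  refine ⟨ks_pow D h M, ?_, ?_⟩
  · rw [hks]
    exact le_mul_of_one_le_right ht0.le hL
  · intro hb c f
    rw [avg_prod]
    have h1 : ∀ q : υ → ZMod 2, avg (fun d : ZMod 2 =>
        f (ks D (Sum.elim h fun _ : Unit => 0) (sb M (Sum.elim c q) d))) =
        (if Sum.elim c q ∈ LinearMap.range (rl D h M) ∧
          (∀ s, fn D h M (Sum.elim c q) s = 0) then (1 : ℝ) else 0) *
            ((f (ks D h M) + f (2 * ks D h M)) / 2 - 2 * f (ks D h M) + f (ks D h M / 2)) +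
        ((if Sum.elim c q ∈ LinearMap.range (rl D h M) then (1 : ℝ) else 0) *
            (f (ks D h M) - f (ks D h M / 2)) +
        ((if ∀ s, fn D h M (Sum.elim c q) s = 0 then (1 : ℝ) else 0) *
            (f (ks D h M) - f (ks D h M / 2)) + f (ks D h M / 2))) := by
      intro q
      rw [avg_corner]
      by_cases h2 : Sum.elim c q ∈ LinearMap.range (rl D h M)
      · by_cases h3 : ∀ s, fn D h M (Sum.elim c q) s = 0
        · rw [if_pos h2, if_pos h3, if_pos ⟨h2, h3⟩, if_pos h2, if_pos h3]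
          ring
        · rw [if_pos h2, if_neg h3, if_neg (fun h4 => h3 h4.2), if_pos h2, if_neg h3]
          ring
      · by_cases h3 : ∀ s, fn D h M (Sum.elim c q) s = 0
        · rw [if_neg h2, if_pos h3, if_neg (fun h4 => h2 h4.1), if_neg h2, if_pos h3]
          ring
        · rw [if_neg h2, if_neg h3, if_neg (fun h4 => h3 h4.2), if_neg h2, if_neg h3]
          ring
    show avg (fun q : υ → ZMod 2 => avg (fun d : ZMod 2 =>
        f (ks D (Sum.elim h fun _ : Unit => 0) (sb M (Sum.elim c q) d)))) = _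
    simp_rw [h1]
    rw [avg_add, avg_add, avg_add, avg_const, Q155.NL.avg_mulc, Q155.NL.avg_mulc, Q155.NL.avg_mulc,
      prob_both c hb, prob_one c hb, prob_two c hb]
    have h2 : (Nat.card (orth (LinearMap.range (rl D h M))) : ℝ) = ks D h M / t := by
      rw [hks]
      field_simp
    have hz : (0 : ℝ) < ks D h M := by
      rw [hks]
      positivity
    rw [h2]
    unfold gT
    field_simp
    ring

end Q34.NB
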