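import Pool.Agent.Q155.NB.Alg

/-!
# Project NB, job NB-CHN: the chain converges to the law
-/

set_option autoImplicit false
set_option linter.unusedSectionVars false

namespace Q34.NB

open Finset Filter Topology
open Q155.KG (FI)
open Q155.NB (gT gTk)
open Q44.BC (lam gx gx_two gx_tendsto lam_A lam_B ij_ge summ_lam HH_one HH)

/-- the rate of the steps up -/
noncomputable def uu (t : ℝ) (c : ℕ) : ℝ := t / (2 * (2 ^ c) ^ 2)

/-- the rate of the steps down -/
noncomputable def dd (t : ℝ) (c : ℕ) : ℝ := (1 - 1 / 2 ^ c) * (1 - t / 2 ^ c)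

/-- the operator -/
noncomputable def PP (t : ℝ) (g : ℕ → ℝ) (c : ℕ) : ℝ :=
  g c + uu t c * (g (c + 1) - g c) - dd t c * (g c - g (c - 1))

theorem gT_pow (t : ℝ) (f : ℕ → ℝ) (c : ℕ) :
    gT t f (2 ^ c) = PP t (fun c => f (2 ^ c)) c := by
  unfold gT PP uu dd
  rcases c with _ | c
  · simp
    ring
  · have h1 : 2 ^ (c + 1) / 2 = 2 ^ c := by
      rw [pow_succ]
      exact Nat.mul_div_cancel _ (by norm_num)
    have h2 : 2 * 2 ^ (c + 1) = 2 ^ (c + 1 + 1) := by
      rw [pow_succ' 2 (c + 1)]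
    rw [h1, h2, Nat.add_sub_cancel]
    push_cast
    have h3 : (2 : ℝ) ^ (c + 1) ≠ 0 := by positivity
    field_simp
    ring

section
variable {t : ℝ} (ht : ∃ i j : ℕ, t = 2 ^ i / 2 ^ j)
include ht

theorem t_pos : 0 < t := by
  obtain ⟨i, j, rfl⟩ := ht
  positivity

theorem adm_cases {c : ℕ} (hc : t ≤ 2 ^ c) : dd t c = 0 ∨ ∃ c', c = c' + 1 ∧ t ≤ 2 ^ c' := by
  rcases c with _ | c
  · left
    unfold dd
    simp
  · by_cases h : t = 2 ^ (c + 1)
    · left
      unfold dd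
      rw [← h, div_self (t_pos ht).ne', sub_self, mul_zero]
    · right
      refine ⟨c, rfl, ?_⟩
      obtain ⟨i, j, rfl⟩ := ht
      have h1 : (2 : ℝ) ^ i / 2 ^ j < 2 ^ (c + 1) := lt_of_le_of_ne hc h
      rw [div_lt_iff₀ (by positivity), ← pow_add] at h1
      have h2 : i < c + 1 + j := (pow_lt_pow_iff_right₀ (by norm_num)).1 h1
      rw [div_le_iff₀ (by positivity), ← pow_add]
      exact pow_le_pow_right₀ (by norm_num) (by omega)

theorem lam_zero {c : ℕ} (hc : ¬ t ≤ 2 ^ c) : lam t c = 0 := by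
  have key : ∀ m : ℕ, gx (2 ^ (m + 1)) = 0 := by
    intro m
    induction m with
    | zero =>
      have := gx_two 1
      rw [sub_self, zero_mul] at this
      rw [zero_add, pow_one, ← this, mul_one]
    | succ m ih =>
      have := gx_two (2 ^ (m + 1))
      rw [ih, mul_zero, ← pow_succ'] at this
      exact this
  obtain ⟨i, j, rfl⟩ := ht
  rw [not_le, lt_div_iff₀ (by positivity), ← pow_add] at hc
  have h1 : c + j < i := (pow_lt_pow_iff_right₀ (by norm_num)).1 hc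
  obtain ⟨m, rfl⟩ := Nat.exists_eq_add_of_lt h1
  unfold lam
  have h2 : (2 : ℝ) ^ (c + j + m + 1) / 2 ^ j / 2 ^ c = 2 ^ (m + 1) := by
    rw [div_div, div_eq_iff (by positivity), ← pow_add, ← pow_add]
    congr 1
    omega
  rw [h2, key, mul_zero]

theorem lam_nonneg (c : ℕ) : 0 ≤ lam t c := by
  by_cases hc : t ≤ 2 ^ c
  · have ht0 := t_pos ht
    unfold lam
    have h1 : 0 ≤ gx (t / 2 ^ c) := by
      refine ge_of_tendsto' (gx_tendsto (x := t / 2 ^ c) (by positivity)) fun n => ?_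
      refine Finset.prod_nonneg fun i _ => ?_
      have h2 : t / 2 ^ c ≤ 1 := by
        rw [div_le_one (by positivity)]
        exact hc
      have h3 : t / 2 ^ c / 2 ^ (i + 1) ≤ t / 2 ^ c :=
        div_le_self (by positivity) (one_le_pow₀ (by norm_num))
      linarith
    have h4 := ij_ge c
    have h5 : (0 : ℝ) < 2 ^ (c * (c - 1)) := by positivity
    refine mul_nonneg (div_nonneg (pow_nonneg ht0.le _) (h5.le.trans h4)) h1
  · rw [lam_zero ht hc]

theorem balance (c : ℕ) : lam t c * uu t c = lam t (c + 1) * dd t (c + 1) := by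
  have h1 := lam_A t (c + 1)
  have h2 := lam_B t c
  rw [h1] at h2
  unfold uu dd
  have h3 : (2 : ℝ) ^ (c + 1) = 2 * 2 ^ c := pow_succ' _ _
  rw [h3] at h2 ⊢
  have h4 : (2 : ℝ) ^ c ≠ 0 := by positivity
  field_simp
  linear_combination (-1) * h2

theorem bd_step {g : ℕ → ℝ} {B : ℝ} (hg : ∀ c : ℕ, t ≤ 2 ^ c → |g c| ≤ B) {c : ℕ}
    (hc : t ≤ 2 ^ c) : |PP t g c| ≤ B := by
  have ht0 := t_pos ht
  have hz : (0 : ℝ) < 2 ^ c := by positivity
  have hz1 : (1 : ℝ) ≤ 2 ^ c := one_le_pow₀ (by norm_num)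
  have ha : 1 / (2 : ℝ) ^ c ≤ 1 := by
    rw [div_le_one hz]
    exact hz1
  have ha0 : 0 < 1 / (2 : ℝ) ^ c := by positivity
  have hb : t / 2 ^ c ≤ 1 := by
    rw [div_le_one hz]
    exact hc
  have hb0 : 0 < t / 2 ^ c := by positivity
  have hu : uu t c = (1 / 2 ^ c) * (t / 2 ^ c) / 2 := by
    unfold uu
    field_simp
  have hd : dd t c = (1 - 1 / 2 ^ c) * (1 - t / 2 ^ c) := rfl
  set a : ℝ := 1 / 2 ^ c with hadef
  set b : ℝ := t / 2 ^ c with hbdef
  have hu0 : 0 ≤ uu t c := by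
    rw [hu]
    positivity
  have hd0 : 0 ≤ dd t c := by
    rw [hd]
    exact mul_nonneg (by linarith) (by linarith)
  have hs0 : 0 ≤ 1 - uu t c - dd t c := by
    rw [hu, hd]
    have h1 : 0 ≤ a * (1 - b) := mul_nonneg ha0.le (by linarith)
    have h2 : 0 ≤ b * (1 - a) := mul_nonneg hb0.le (by linarith)
    have h3 : 0 ≤ a * b := mul_nonneg ha0.le hb0.le
    nlinarith
  have hc1 : t ≤ 2 ^ (c + 1) := hc.trans (pow_le_pow_right₀ (by norm_num) (by omega))
  have h1 : |dd t c * g (c - 1)| ≤ dd t c * B := by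
    rcases adm_cases ht hc with h | ⟨c', rfl, h⟩
    · rw [h, zero_mul, zero_mul, abs_zero]
    · rw [abs_mul, abs_of_nonneg hd0, Nat.add_sub_cancel]
      exact mul_le_mul_of_nonneg_left (hg c' h) hd0
  have h2 : |uu t c * g (c + 1)| ≤ uu t c * B := by
    rw [abs_mul, abs_of_nonneg hu0]
    exact mul_le_mul_of_nonneg_left (hg _ hc1) hu0
  have h3 : |(1 - uu t c - dd t c) * g c| ≤ (1 - uu t c - dd t c) * B := by
    rw [abs_mul, abs_of_nonneg hs0]
    exact mul_le_mul_of_nonneg_left (hg _ hc) hs0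
  have h4 : PP t g c = uu t c * g (c + 1) + (1 - uu t c - dd t c) * g c + dd t c * g (c - 1) := by
    unfold PP
    ring
  rw [h4]
  have h5 := abs_add_le (uu t c * g (c + 1) + (1 - uu t c - dd t c) * g c) (dd t c * g (c - 1))
  have h6 := abs_add_le (uu t c * g (c + 1)) ((1 - uu t c - dd t c) * g c)
  linarith

theorem lip_step {g : ℕ → ℝ} {L : ℝ} (hg : ∀ c : ℕ, t ≤ 2 ^ c → |g (c + 1) - g c| ≤ L * 2 ^ c)
    {c : ℕ} (hc : t ≤ 2 ^ c) : |PP t g (c + 1) - PP t g c| ≤ L / 2 * 2 ^ c := by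
  have ht0 := t_pos ht
  have hz : (0 : ℝ) < 2 ^ c := by positivity
  have hz1 : (1 : ℝ) ≤ 2 ^ c := one_le_pow₀ (by norm_num)
  have ha : 1 / (2 : ℝ) ^ c ≤ 1 := by
    rw [div_le_one hz]
    exact hz1
  have ha0 : 0 < 1 / (2 : ℝ) ^ c := by positivity
  have hb : t / 2 ^ c ≤ 1 := by
    rw [div_le_one hz]
    exact hc
  have hb0 : 0 < t / 2 ^ c := by positivity
  have h3 : (2 : ℝ) ^ (c + 1) = 2 * 2 ^ c := pow_succ' _ _
  have hu : uu t c = (1 / 2 ^ c) * (t / 2 ^ c) / 2 := by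
    unfold uu
    field_simp
  have hu1 : uu t (c + 1) = (1 / 2 ^ c) * (t / 2 ^ c) / 8 := by
    unfold uu
    rw [h3]
    field_simp
    norm_num
  have hd : dd t c = (1 - 1 / 2 ^ c) * (1 - t / 2 ^ c) := rfl
  have hd1 : dd t (c + 1) = (1 - 1 / 2 ^ c / 2) * (1 - t / 2 ^ c / 2) := by
    unfold dd
    rw [h3, div_div, div_div, mul_comm (2 : ℝ) (2 ^ c)]
  have hza : (1 / 2 ^ c) * (2 : ℝ) ^ c = 1 := by
    field_simp
  set a : ℝ := 1 / 2 ^ c with hadef
  set b : ℝ := t / 2 ^ c with hbdef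
  have hab : 0 < a * b := mul_pos ha0 hb0
  have hab1 : a * b ≤ a := mul_le_of_le_one_right ha0.le hb
  have hab2 : a * b ≤ b := mul_le_of_le_one_left hb0.le ha
  have hu10 : 0 ≤ uu t (c + 1) := by
    rw [hu1]
    positivity
  have hd0 : 0 ≤ dd t c := by
    rw [hd]
    exact mul_nonneg (by linarith) (by linarith)
  have hs0 : 0 ≤ 1 - uu t c - dd t (c + 1) := by
    rw [hu, hd1]
    nlinarith
  have hc1 : t ≤ 2 ^ (c + 1) := hc.trans (pow_le_pow_right₀ (by norm_num) (by omega))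
  have hL : 0 ≤ L := by
    by_contra hneg
    have h1 := (abs_nonneg _).trans (hg c hc)
    have h2 : L * 2 ^ c < 0 := mul_neg_of_neg_of_pos (not_le.1 hneg) hz
    linarith
  have h1 : |dd t c * (g c - g (c - 1))| ≤ dd t c * (L * (2 ^ c / 2)) := by
    rcases adm_cases ht hc with h | ⟨c', rfl, h⟩
    · rw [h, zero_mul, zero_mul, abs_zero]
    · rw [abs_mul, abs_of_nonneg hd0, Nat.add_sub_cancel]
      have h5 : (2 : ℝ) ^ (c' + 1) / 2 = 2 ^ c' := by
        rw [pow_succ]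
        ring
      rw [h5]
      exact mul_le_mul_of_nonneg_left (hg c' h) hd0
  have h2 : |uu t (c + 1) * (g (c + 1 + 1) - g (c + 1))| ≤ uu t (c + 1) * (L * (2 * 2 ^ c)) := by
    rw [abs_mul, abs_of_nonneg hu10, ← h3]
    exact mul_le_mul_of_nonneg_left (hg _ hc1) hu10
  have h4 : |(1 - uu t c - dd t (c + 1)) * (g (c + 1) - g c)| ≤
      (1 - uu t c - dd t (c + 1)) * (L * 2 ^ c) := by
    rw [abs_mul, abs_of_nonneg hs0]
    exact mul_le_mul_of_nonneg_left (hg _ hc) hs0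
  have h5 : PP t g (c + 1) - PP t g c = uu t (c + 1) * (g (c + 1 + 1) - g (c + 1)) +
      (1 - uu t c - dd t (c + 1)) * (g (c + 1) - g c) + dd t c * (g c - g (c - 1)) := by
    unfold PP
    rw [Nat.add_sub_cancel]
    ring
  rw [h5]
  have h6 := abs_add_le (uu t (c + 1) * (g (c + 1 + 1) - g (c + 1)) +
      (1 - uu t c - dd t (c + 1)) * (g (c + 1) - g c)) (dd t c * (g c - g (c - 1)))
  have h7 := abs_add_le (uu t (c + 1) * (g (c + 1 + 1) - g (c + 1)))
      ((1 - uu t c - dd t (c + 1)) * (g (c + 1) - g c))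
  have h8 : uu t (c + 1) * (L * (2 * 2 ^ c)) + (1 - uu t c - dd t (c + 1)) * (L * 2 ^ c) +
      dd t c * (L * (2 ^ c / 2)) = L / 2 * 2 ^ c := by
    rw [hu, hu1, hd, hd1]
    have h9 : (2 : ℝ) ^ c * a = 1 := by
      rw [mul_comm]
      exact hza
    ring
  linarith

theorem path {g : ℕ → ℝ} {L : ℝ} (hg : ∀ c : ℕ, t ≤ 2 ^ c → |g (c + 1) - g c| ≤ L * 2 ^ c)
    {c : ℕ} (hc : t ≤ 2 ^ c) (n : ℕ) : |g (c + n) - g c| ≤ L * (2 ^ (c + n) - 2 ^ c) := by
  induction n with
  | zero => simp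
  | succ n ih =>
    have hc1 : t ≤ 2 ^ (c + n) := hc.trans (pow_le_pow_right₀ (by norm_num) (by omega))
    have h1 := hg (c + n) hc1
    have h2 := abs_add_le (g (c + n + 1) - g (c + n)) (g (c + n) - g c)
    have h3 : g (c + n + 1) - g (c + n) + (g (c + n) - g c) = g (c + (n + 1)) - g c := by
      rw [← add_assoc]
      ring
    rw [h3] at h2
    have h4 : (2 : ℝ) ^ (c + (n + 1)) = 2 * 2 ^ (c + n) := by
      rw [← add_assoc, pow_succ']
    rw [h4]
    linarith

theorem path2 {g : ℕ → ℝ} {L : ℝ} (hg : ∀ c : ℕ, t ≤ 2 ^ c → |g (c + 1) - g c| ≤ L * 2 ^ c)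
    {c c' : ℕ} (hc : t ≤ 2 ^ c) (hc' : t ≤ 2 ^ c') : |g c - g c'| ≤ L * (2 ^ c + 2 ^ c') := by
  have hL : 0 ≤ L := by
    by_contra hneg
    have h1 := (abs_nonneg _).trans (hg c hc)
    have h2 : L * 2 ^ c < 0 := mul_neg_of_neg_of_pos (not_le.1 hneg) (by positivity)
    linarith
  have h0 : 0 ≤ L * 2 ^ c := by positivity
  have h0' : 0 ≤ L * 2 ^ c' := by positivity
  rcases le_total c c' with h | h
  · obtain ⟨n, rfl⟩ := Nat.exists_eq_add_of_le h
    have h1 := path ht hg hc n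
    rw [abs_sub_comm]
    nlinarith
  · obtain ⟨n, rfl⟩ := Nat.exists_eq_add_of_le h
    have h1 := path ht hg hc' n
    nlinarith

theorem part_stat (g : ℕ → ℝ) (N : ℕ) : ∑ c ∈ range (N + 1), lam t c * (PP t g c - g c) =
    lam t N * uu t N * (g (N + 1) - g N) := by
  induction N with
  | zero =>
    rw [Finset.sum_range_one]
    unfold PP dd
    simp
    ring
  | succ N ih =>
    rw [Finset.sum_range_succ, ih, balance ht N]
    unfold PP
    rw [Nat.add_sub_cancel]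
    ring

theorem stat {g : ℕ → ℝ} {B : ℝ} (hg : ∀ c : ℕ, t ≤ 2 ^ c → |g c| ≤ B) :
    HasSum (fun c => lam t c * (PP t g c - g c)) 0 := by
  have ht0 := t_pos ht
  have hl := summ_lam ht0.le
  have h1 : ∀ c, ‖lam t c * (PP t g c - g c)‖ ≤ lam t c * (2 * B) := by
    intro c
    rw [norm_mul, Real.norm_eq_abs, Real.norm_eq_abs, abs_of_nonneg (lam_nonneg ht c)]
    by_cases hc : t ≤ 2 ^ c
    · refine mul_le_mul_of_nonneg_left ?_ (lam_nonneg ht c)
      have h2 := bd_step ht hg hc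
      have h3 := hg c hc
      have h4 := abs_sub (PP t g c) (g c)
      linarith
    · rw [lam_zero ht hc, zero_mul, zero_mul]
  have hs : Summable fun c => lam t c * (PP t g c - g c) :=
    Summable.of_norm_bounded (hl.mul_right _) h1
  have h2 : Tendsto (fun N => ∑ c ∈ range (N + 1), lam t c * (PP t g c - g c)) atTop
      (𝓝 (∑' c, lam t c * (PP t g c - g c))) :=
    (tendsto_add_atTop_iff_nat 1).2 hs.hasSum.tendsto_sum_nat
  have h3 : Tendsto (fun N => ∑ c ∈ range (N + 1), lam t c * (PP t g c - g c)) atTop (𝓝 0) := by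
    have h4 : ∀ N, ‖∑ c ∈ range (N + 1), lam t c * (PP t g c - g c)‖ ≤ lam t N * (t * B) := by
      intro N
      rw [part_stat ht g N, Real.norm_eq_abs]
      by_cases hc : t ≤ 2 ^ N
      · rw [abs_mul, abs_mul, abs_of_nonneg (lam_nonneg ht N), mul_assoc]
        refine mul_le_mul_of_nonneg_left ?_ (lam_nonneg ht N)
        have hc1 : t ≤ 2 ^ (N + 1) := hc.trans (pow_le_pow_right₀ (by norm_num) (by omega))
        have h5 := hg N hc
        have h6 := hg (N + 1) hc1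
        have h7 := abs_sub (g (N + 1)) (g N)
        have h8 : |uu t N| ≤ t / 2 := by
          unfold uu
          rw [abs_of_pos (by positivity)]
          refine div_le_div_of_nonneg_left ht0.le (by norm_num) ?_
          have : (1 : ℝ) ≤ (2 ^ N) ^ 2 := one_le_pow₀ (one_le_pow₀ (by norm_num))
          linarith
        calc |uu t N| * |g (N + 1) - g N| ≤ t / 2 * (B + B) :=
              mul_le_mul h8 (by linarith) (abs_nonneg _) (by positivity)
          _ = t * B := by ring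
      · rw [lam_zero ht hc, zero_mul, zero_mul, zero_mul, abs_zero]
    have h5 : Tendsto (fun N => lam t N * (t * B)) atTop (𝓝 0) := by
      have := hl.tendsto_atTop_zero.mul_const (t * B)
      rwa [zero_mul] at this
    exact squeeze_zero_norm h4 h5
  have h4 := tendsto_nhds_unique h2 h3
  rw [← h4]
  exact hs.hasSum

theorem hasSum_lam : HasSum (fun c => lam t c) 1 := by
  have h := (summ_lam (t_pos ht).le).hasSum
  have h1 : ∑' r : ℕ, lam t r = 1 := HH_one (t_pos ht).le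
  rwa [h1] at h

theorem hasSum_mean : HasSum (fun c : ℕ => 2 ^ c * lam t c) (1 + t) := by
  have ht0 := t_pos ht
  have h1 : HasSum (fun c => lam (2 * t) c) 1 := by
    have h := (summ_lam (t := 2 * t) (by positivity)).hasSum
    have h1 : ∑' r : ℕ, lam (2 * t) r = 1 := HH_one (by positivity)
    rwa [h1] at h
  have h2 := h1.add ((hasSum_lam ht).mul_left t)
  rw [mul_one] at h2
  have h3 : (fun c : ℕ => (2 : ℝ) ^ c * lam t c) = fun c => lam (2 * t) c + t * lam t c := by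
    funext c
    rw [lam_A]
    ring
  rw [h3]
  exact h2

theorem gTk_pow (f : ℕ → ℝ) (k c : ℕ) :
    gTk t f (k + 1) (2 ^ c) = PP t (fun c => gTk t f k (2 ^ c)) c := gT_pow t (gTk t f k) c

theorem bd_all {f : ℕ → ℝ} {B : ℝ} (hf : ∀ c : ℕ, t ≤ 2 ^ c → |f (2 ^ c)| ≤ B) (k : ℕ) :
    ∀ c : ℕ, t ≤ 2 ^ c → |gTk t f k (2 ^ c)| ≤ B := by
  induction k with
  | zero => exact hf
  | succ k ih =>
    intro c hc
    rw [gTk_pow ht]
    exact bd_step ht (g := fun c => gTk t f k (2 ^ c)) ih hc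

omit ht in
theorem FI_bd (b c : ℕ) : |FI b (2 ^ c)| ≤ 1 := by
  unfold FI
  split_ifs <;> norm_num

omit ht in
theorem FI_lip (b c : ℕ) : |FI b (2 ^ (c + 1)) - FI b (2 ^ c)| ≤ 1 * 2 ^ c := by
  have h1 : (1 : ℝ) ≤ 2 ^ c := one_le_pow₀ (by norm_num)
  have h2 : |FI b (2 ^ (c + 1)) - FI b (2 ^ c)| ≤ 1 := by
    unfold FI
    split_ifs <;> norm_num
  linarith

theorem lip_all (b k : ℕ) : ∀ c : ℕ, t ≤ 2 ^ c →
    |gTk t (FI b) k (2 ^ (c + 1)) - gTk t (FI b) k (2 ^ c)| ≤ 1 / 2 ^ k * 2 ^ c := by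
  induction k with
  | zero =>
    intro c _
    rw [pow_zero, div_one]
    exact FI_lip b c
  | succ k ih =>
    intro c hc
    rw [gTk_pow ht, gTk_pow ht]
    have h1 := lip_step ht (g := fun c => gTk t (FI b) k (2 ^ c)) ih hc
    have h2 : (1 : ℝ) / 2 ^ (k + 1) = 1 / 2 ^ k / 2 := by
      rw [pow_succ]
      field_simp
    rw [h2]
    exact h1

theorem sum_all (b k : ℕ) : HasSum (fun c => lam t c * gTk t (FI b) k (2 ^ c)) (lam t b) := by
  induction k with
  | zero =>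
    have h1 : lam t b = lam t b * gTk t (FI b) 0 (2 ^ b) := by
      show lam t b = lam t b * FI b (2 ^ b)
      unfold FI
      rw [if_pos rfl, mul_one]
    have h2 := hasSum_single (f := fun c => lam t c * gTk t (FI b) 0 (2 ^ c)) b ?_
    · rw [h1]
      exact h2
    · intro c hc
      show lam t c * FI b (2 ^ c) = 0
      unfold FI
      rw [if_neg, mul_zero]
      intro h
      exact hc (Nat.pow_right_injective le_rfl h)
  | succ k ih =>
    have h1 := stat ht (g := fun c => gTk t (FI b) k (2 ^ c)) (B := 1)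
      (bd_all ht (fun c _ => FI_bd b c) k)
    have h2 := h1.add ih
    rw [zero_add] at h2
    have h3 : (fun c => lam t c * gTk t (FI b) (k + 1) (2 ^ c)) = fun c =>
        lam t c * (PP t (fun c => gTk t (FI b) k (2 ^ c)) c - gTk t (FI b) k (2 ^ c)) +
          lam t c * gTk t (FI b) k (2 ^ c) := by
      funext c
      rw [gTk_pow ht]
      ring
    rw [h3]
    exact h2

theorem conv (b k : ℕ) {c : ℕ} (hc : t ≤ 2 ^ c) :
    |gTk t (FI b) k (2 ^ c) - lam t b| ≤ (2 ^ c + 1 + t) / 2 ^ k := by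
  set h : ℕ → ℝ := fun c => gTk t (FI b) k (2 ^ c) with hh
  have h1 : HasSum (fun c' => lam t c' * h c) (h c) := by
    have := (hasSum_lam ht).mul_right (h c)
    rwa [one_mul] at this
  have h2 := h1.sub (sum_all ht b k)
  have h3 : HasSum (fun c' => lam t c' * ((2 ^ c + 2 ^ c') / 2 ^ k)) ((2 ^ c + 1 + t) / 2 ^ k) := by
    have h4 := (((hasSum_lam ht).mul_left (2 ^ c)).add (hasSum_mean ht)).div_const (2 ^ k)
    have h5 : (fun c' => lam t c' * (((2 : ℝ) ^ c + 2 ^ c') / 2 ^ k)) =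
        fun c' => (2 ^ c * lam t c' + 2 ^ c' * lam t c') / 2 ^ k := by
      funext c'
      ring
    rw [h5]
    have h6 : ((2 : ℝ) ^ c + 1 + t) / 2 ^ k = (2 ^ c * 1 + (1 + t)) / 2 ^ k := by ring
    rw [h6]
    exact h4
  have h4 : ∀ c', ‖lam t c' * h c - lam t c' * gTk t (FI b) k (2 ^ c')‖ ≤
      lam t c' * ((2 ^ c + 2 ^ c') / 2 ^ k) := by
    intro c'
    rw [← mul_sub, norm_mul, Real.norm_eq_abs, Real.norm_eq_abs, abs_of_nonneg (lam_nonneg ht c')]
    by_cases hc' : t ≤ 2 ^ c'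
    · refine mul_le_mul_of_nonneg_left ?_ (lam_nonneg ht c')
      have h5 := path2 ht (g := h) (L := 1 / 2 ^ k) (lip_all ht b k) hc hc'
      refine h5.trans (le_of_eq ?_)
      ring
    · rw [lam_zero ht hc', zero_mul, zero_mul]
  have h5 := tsum_of_norm_bounded h3 h4
  rw [h2.tsum_eq, Real.norm_eq_abs] at h5
  exact h5

end

theorem gTk_shift (t : ℝ) (f : ℕ → ℝ) (k : ℕ) : gTk t (gT t f) k = gTk t f (k + 1) := by
  induction k with
  | zero => rfl
  | succ k ih =>
    funext z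
    show gT t (gTk t (gT t f) k) z = gT t (gTk t f (k + 1)) z
    rw [ih]

/-- **JOB NB-CHN.** -/
theorem chn : Q155.NB.S_CHN := fun t ht =>
  ⟨fun b k _ hc => conv ht b k hc, fun _ _ hf k => bd_all ht hf k,
    fun f k z => congrFun (gTk_shift t f k) z, lam_nonneg ht, hasSum_mean ht⟩

end Q34.NB
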